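import Pool.Agent.N20.DI.Stm2
import Pool.Agent.R674.KB.Dz
import Pool.Agent.Y624.NV.Trn
import Pool.Agent.Y171.NV.Kfin

/-!
# Characters of defect zero do not occur
-/

set_option autoImplicit false

open scoped Classical

noncomputable section

namespace Pool.Agent.N655.DIDZ0

open Pool.Agent.N20.DI
open Pool.Agent.Y63.NV
open Pool.Agent.Y63.KR
open Pool.Agent.Y63.AWC (IsIrreducibleCharacter)
open Pool.Agent.R674.Tw (Fixes GCh NG NE NEbar ng_le IndB invSum)

theorem wt_bot {p : ℕ} {J : Type} [Group J] {χ : J → ℂ} (hχ : IsIrreducibleCharacter χ)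
    (hd : HasDef p 0 χ) : IsWt p (⊥ : Subgroup J) χ := by
  obtain ⟨n, h1, h2⟩ := hd
  refine ⟨hχ, ?_, n, h1, ?_⟩
  · intro q hq x
    rw [Subgroup.mem_bot] at hq
    rw [hq, one_mul]
  · rw [Subgroup.card_bot, Nat.factorization_one]
    exact h2

theorem DZ0 : S_DZ0 := by
  intro p _ F _ _ _ red E _ _ G _ B hB0 σ hσ hle χ hχ hd hI
  have hw := wt_bot hχ hd
  rcases σ.eq_empty_or_nonempty with rfl | hne
  · -- the empty chain
    have hG : G = NG G ∅ := by
      unfold NG
      rw [chainStabilizer_empty, inf_top_eq]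
    let e : G ≃* NG G ∅ := MulEquiv.subgroupCongr hG
    have h1 : IsWt p (⊥ : Subgroup G) (fun x => χ (e x)) := by
      refine Pool.Agent.Y624.NV.isWt_comp e (fun x => ?_) hw
      rw [Subgroup.mem_bot, Subgroup.mem_bot, map_eq_one_iff e e.injective]
    have h2 : ∀ f : G → F, IsClassFun f → centralValue red (fun x => χ (e x)) f = B f := by
      intro f hf
      have hf' : IsClassFun (fun x : NG G ∅ => f ⟨x, ng_le G ∅ x.2⟩) := by
        intro g x
        exact hf ⟨g, ng_le G ∅ g.2⟩ ⟨x, ng_le G ∅ x.2⟩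
      have h3 := Pool.Agent.Y624.NV.centralValue_comp red e hχ hf'
      rw [hI f hf] at h3
      exact h3
    have : Finite {χ : G → ℂ // IsWt p (⊥ : Subgroup G) χ ∧
        ∀ f : G → F, IsClassFun f → centralValue red χ f = B f} := by
      have := Pool.Agent.Y171.NV.irr_fin G
      exact Finite.of_injective (fun ψ => (⟨ψ.1, ψ.2.1.irr⟩ :
        {χ : G → ℂ // IsIrreducibleCharacter χ})) (fun a b hab =>
          Subtype.ext (Subtype.mk.inj hab))
    unfold numDzBlock at hB0
    rw [Finite.card_eq_zero_iff] at hB0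
    exact hB0.false ⟨_, h1, h2⟩
  · obtain ⟨P, hP, hmin⟩ := exists_least hσ.chain hne
    have hPN : P ≤ NG G σ := by
      intro x hx
      refine Subgroup.mem_inf.2 ⟨hle P hP hx, ?_⟩
      rw [mem_chainStabilizer]
      intro Q hQ
      rw [conjSub_eq_iff]
      exact Subgroup.le_normalizer (hmin Q hQ hx)
    have hn : (P.subgroupOf (NG G σ)).Normal := by
      constructor
      intro x hx y
      rw [Subgroup.mem_subgroupOf] at hx ⊢
      have h1 : conjSub (y : E) P = P :=
        mem_chainStabilizer.mp (Subgroup.mem_inf.1 y.2).2 P hP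
      have h2 := conj_mem_conjSub (g := (y : E)) hx
      rw [h1] at h2
      exact h2
    have hτ : IsPChain p ({P.subgroupOf (NG G σ)} : Set (Subgroup (NG G σ))) := by
      refine ⟨?_, ?_, ?_⟩
      · exact Set.subsingleton_singleton.isChain
      · rintro _ rfl
        exact (hσ.isPGroup P hP).comap_subtype
      · rintro _ rfl h
        apply hσ.ne_bot P hP
        rw [Subgroup.subgroupOf_eq_bot] at h
        exact (Disjoint.eq_bot_of_le h hPN)
    have htop : chainStabilizer ({P.subgroupOf (NG G σ)} : Set (Subgroup (NG G σ))) = ⊤ := by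
      rw [eq_top_iff]
      intro y _
      rw [mem_chainStabilizer]
      rintro _ rfl
      rw [conjSub_eq_iff, Subgroup.normalizer_eq_top]
      exact Subgroup.mem_top y
    let e : chainStabilizer ({P.subgroupOf (NG G σ)} : Set (Subgroup (NG G σ))) ≃* NG G σ :=
      (MulEquiv.subgroupCongr htop).trans Subgroup.topEquiv
    have : Fintype (NG G σ) := Fintype.ofFinite _
    refine Pool.Agent.R674.KB.dz_chain (F := F) red hw hτ ⟨_, rfl⟩
      (ϑ := fun x => χ (e x)) (Pool.Agent.Y624.NV.irr_comp e hχ) ?_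
    intro f hf
    exact Pool.Agent.Y624.NV.centralValue_comp red e hχ hf

end Pool.Agent.N655.DIDZ0
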