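import Pool.Agent.N20.EW.Stm2

/-!
# Project EW: from a normal subgroup to an automorphism (helper655)
-/

set_option autoImplicit false

open scoped Classical BigOperators

noncomputable section

namespace Pool.Agent.N655.EWAUTW

open Pool.Agent.Y63.NV
open Pool.Agent.N20.EW

section inv

variable {F : Type} {G : Type} [Group G] (B : (G → F) → F)

/-- the automorphisms under which `B` is invariant -/
def invS : Subgroup (MulAut G) where
  carrier := {β | InvA B β}
  mul_mem' := by
    intro α β hα hβ f hf
    have hc : ∀ g x : G, (fun x => f (α x)) (g * x * g⁻¹) = (fun x => f (α x)) x := by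
      intro g x
      show f (α (g * x * g⁻¹)) = f (α x)
      rw [map_mul, map_mul, map_inv]
      exact hf _ _
    exact (hβ (fun x => f (α x)) hc).trans (hα f hf)
  one_mem' := by
    intro f _
    rfl
  inv_mem' := by
    intro α hα f hf
    have hc : ∀ g x : G, (fun x => f (α⁻¹ x)) (g * x * g⁻¹) = (fun x => f (α⁻¹ x)) x := by
      intro g x
      show f (α⁻¹ (g * x * g⁻¹)) = f (α⁻¹ x)
      rw [map_mul, map_mul, map_inv]
      exact hf _ _
    have h1 := hα (fun x => f (α⁻¹ x)) hc
    have h2 : (fun x => (fun x => f (α⁻¹ x)) (α x)) = f := by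
      funext x
      show f (α⁻¹ (α x)) = f x
      rw [MulAut.inv_apply_self]
    rw [h2] at h1
    exact h1.symm

theorem inv_zpow {α : MulAut G} (h : InvA B α) (n : ℤ) : InvA B (α ^ n) :=
  (invS B).zpow_mem (show α ∈ invS B from h) n

end inv

section abs

variable {G : Type} [Group G] {E : Type} [Group E] (i : G →* E) (t : E) (α : MulAut G)

theorem conj_zpow (ht : ∀ x, t * i x * t⁻¹ = i (α x)) (n : ℤ) (x : G) :
    t ^ n * i x * (t ^ n)⁻¹ = i ((α ^ n) x) := by
  have h1 : ∀ (m : ℕ) (x : G), t ^ m * i x * (t ^ m)⁻¹ = i ((α ^ m) x) := by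
    intro m
    induction m with
    | zero =>
      intro x
      rw [pow_zero, pow_zero, one_mul, inv_one, mul_one]
      rfl
    | succ m ih =>
      intro x
      have e : t ^ (m + 1) * i x * (t ^ (m + 1))⁻¹ = t ^ m * (t * i x * t⁻¹) * (t ^ m)⁻¹ := by
        rw [pow_succ]
        group
      rw [e, ht, ih, pow_succ]
      rfl
  obtain ⟨m, rfl | rfl⟩ := n.eq_nat_or_neg
  · rw [zpow_natCast, zpow_natCast]
    exact h1 m x
  · rw [zpow_neg, zpow_neg, zpow_natCast, zpow_natCast, inv_inv]
    have h2 := h1 m ((α ^ m)⁻¹ x)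
    rw [MulAut.apply_inv_self] at h2
    rw [← h2]
    group

theorem conj_all (hi : Function.Injective i) (ht : ∀ x, t * i x * t⁻¹ = i (α x)) (g x y : G) :
    i y = i g * t * i x * (i g * t)⁻¹ ↔ y = g * α x * g⁻¹ := by
  have e : i g * t * i x * (i g * t)⁻¹ = i (g * α x * g⁻¹) := by
    rw [map_mul, map_mul, map_inv, ← ht]
    group
  rw [e]
  exact hi.eq_iff

end abs

theorem AUTW (h : S_EQW) : S_AUTW := by
  intro p _ F _ _ _ red hA G _ _ α B hB hα
  have hfin : Finite (MulAut G) :=
    Finite.of_injective (fun f : MulAut G => (f : G → G)) DFunLike.coe_injective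
  have hE : Finite (SemidirectProduct G (Subgroup.zpowers α) (Subgroup.zpowers α).subtype) :=
    Finite.of_equiv _ SemidirectProduct.equivProd.symm
  have hn : (SemidirectProduct.inl : G →*
      SemidirectProduct G (Subgroup.zpowers α) (Subgroup.zpowers α).subtype).range.Normal := by
    rw [SemidirectProduct.range_inl_eq_ker_rightHom]
    infer_instance
  have hi : Function.Injective (SemidirectProduct.inl : G →*
      SemidirectProduct G (Subgroup.zpowers α) (Subgroup.zpowers α).subtype) :=
    SemidirectProduct.inl_injective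
  obtain ⟨t, htd⟩ : ∃ t : SemidirectProduct G (Subgroup.zpowers α) (Subgroup.zpowers α).subtype,
    t = SemidirectProduct.inr ⟨α, Subgroup.mem_zpowers α⟩ := ⟨_, rfl⟩
  have ht : ∀ x : G, t * SemidirectProduct.inl x * t⁻¹ = SemidirectProduct.inl (α x) := by
    intro x
    rw [htd, ← map_inv, ← SemidirectProduct.inl_aut]
    rfl
  have hcyc : ∀ k : SemidirectProduct G (Subgroup.zpowers α) (Subgroup.zpowers α).subtype,
      ∃ n : ℤ, ∃ g : G, k = t ^ n * SemidirectProduct.inl g := by
    intro k
    obtain ⟨n, hn⟩ := Subgroup.mem_zpowers_iff.1 k.right.2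
    refine ⟨n, (α ^ n)⁻¹ k.left, ?_⟩
    have h1 : t ^ n = SemidirectProduct.inr k.right := by
      rw [htd, ← map_zpow]
      congr 1
      exact Subtype.ext hn
    have h2 := conj_zpow (SemidirectProduct.inl : G →*
      SemidirectProduct G (Subgroup.zpowers α) (Subgroup.zpowers α).subtype) t α ht n
      ((α ^ n)⁻¹ k.left)
    rw [MulAut.apply_inv_self] at h2
    have h3 : t ^ n * SemidirectProduct.inl ((α ^ n)⁻¹ k.left) =
        SemidirectProduct.inl k.left * t ^ n := by
      rw [← h2]
      group
    rw [h3, h1, SemidirectProduct.inl_left_mul_inr_right]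
  have hinv : ∀ k : SemidirectProduct G (Subgroup.zpowers α) (Subgroup.zpowers α).subtype,
      ∀ f f' : G → F, IsClassFun f → (∀ x y : G, SemidirectProduct.inl y =
        k * SemidirectProduct.inl x * k⁻¹ → f' y = f x) → B f' = B f := by
    intro k f f' hf hff
    obtain ⟨n, g, rfl⟩ := hcyc k
    have h1 : ∀ x : G, f' ((α ^ n) x) = f x := by
      intro x
      have h2 := hff (g⁻¹ * x * g) ((α ^ n) x) (by
        rw [← conj_zpow (SemidirectProduct.inl : G →*
          SemidirectProduct G (Subgroup.zpowers α) (Subgroup.zpowers α).subtype) t α ht n,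
          map_mul, map_mul, map_inv]
        group)
      rw [h2]
      have h3 := hf g⁻¹ x
      rw [inv_inv] at h3
      exact h3
    have hc : ∀ g x : G, f' (g * x * g⁻¹) = f' x := by
      intro g x
      have h4 : ∀ y : G, f' y = f ((α ^ n)⁻¹ y) := by
        intro y
        rw [← h1, MulAut.apply_inv_self]
      rw [h4, h4, map_mul, map_mul, map_inv]
      exact hf _ _
    have h5 := inv_zpow B hα n f' hc
    rw [← h5]
    congr 1
    funext x
    exact h1 x
  have key := h p F red G _ SemidirectProduct.inl t hi hn hcyc hA B hB hinv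
  have e1 : fixL B α = Nat.card {φ : G → F // IsIrrTrace φ ∧
      (∀ f : G → F, IsClassFun f → ∀ x : G, ∑ᶠ g : G, f g * φ (g * x) = B f * φ x) ∧
      ∀ x y : G, (SemidirectProduct.inl y :
        SemidirectProduct G (Subgroup.zpowers α) (Subgroup.zpowers α).subtype) =
        t * SemidirectProduct.inl x * t⁻¹ → φ y = φ x} := by
    unfold fixL
    refine Nat.card_congr (Equiv.subtypeEquivRight fun φ => ?_)
    refine and_congr_right fun _ => and_congr_right fun _ => ?_
    constructor
    · intro h1 x y hxy
      rw [ht] at hxy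
      rw [hi hxy]
      exact h1 x
    · intro h1 x
      exact h1 x (α x) (ht x).symm
  rw [e1, key]
  refine finsum_congr fun R => ?_
  by_cases hR : IsPGroup p R
  · rw [if_pos hR, if_pos hR]
    congr 1
    refine Nat.card_congr (Equiv.subtypeEquivRight fun ξ => ?_)
    refine and_congr_right fun _ => and_congr_right fun _ => ?_
    unfold FixW
    refine exists_congr fun g => ?_
    have c := conj_all (SemidirectProduct.inl : G →*
      SemidirectProduct G (Subgroup.zpowers α) (Subgroup.zpowers α).subtype) t α hi ht g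
    refine and_congr ?_ ?_
    · refine forall_congr' fun x => ?_
      refine iff_congr Iff.rfl ?_
      constructor
      · rintro ⟨y, hy, hxy⟩
        rw [← (c x y).1 hxy]
        exact hy
      · intro hx
        exact ⟨_, hx, (c x _).2 rfl⟩
    · refine forall_congr' fun x => forall_congr' fun y => ?_
      constructor
      · intro h1 h2
        exact h1 ((c x y).2 h2)
      · intro h1 h2
        exact h1 ((c x y).1 h2)
  · rw [if_neg hR, if_neg hR]

end Pool.Agent.N655.EWAUTW
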