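import Pool.Agent.N795.PI.Stm

/-!
# Project PI (helper795), part JNU (helper655): the radial component of the momentum density
-/

set_option autoImplicit false

namespace Pool.Agent.N795.PI

namespace JnuAux

open Filter Topology

variable {x : E3}

/-- directional derivative -/
theorem dir {u : E3 → ℝ} (hu : DifferentiableAt ℝ u x) (v : E3) :
    HasDerivAt (fun s : ℝ => u (x + s • v)) (fderiv ℝ u x v) 0 := by
  have h1 : HasDerivAt (fun s : ℝ => x + s • v) v 0 := by
    have := ((hasDerivAt_id (0 : ℝ)).smul_const v).const_add x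
    simpa using this
  have h2 : HasFDerivAt u (fderiv ℝ u x) (x + (0 : ℝ) • v) := by
    rw [zero_smul, add_zero]
    exact hu.hasFDerivAt
  exact h2.comp_hasDerivAt (0 : ℝ) h1

theorem fd_mul {u w : E3 → ℝ} (hu : DifferentiableAt ℝ u x) (hw : DifferentiableAt ℝ w x)
    (v : E3) : fderiv ℝ (fun y => u y * w y) x v =
      fderiv ℝ u x v * w x + u x * fderiv ℝ w x v := by
  have h1 := dir (hu.fun_mul hw) v
  have h2 := (dir hu v).fun_mul (dir hw v)
  have h3 := h1.unique h2
  simpa using h3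

theorem fd_sub {u w : E3 → ℝ} (hu : DifferentiableAt ℝ u x) (hw : DifferentiableAt ℝ w x)
    (v : E3) : fderiv ℝ (fun y => u y - w y) x v = fderiv ℝ u x v - fderiv ℝ w x v := by
  have h1 := dir (hu.fun_sub hw) v
  have h2 := (dir hu v).fun_sub (dir hw v)
  exact h1.unique h2

theorem diff_div {u w : E3 → ℝ} (hu : DifferentiableAt ℝ u x) (hw : DifferentiableAt ℝ w x)
    (hw0 : w x ≠ 0) : DifferentiableAt ℝ (fun y => u y / w y) x := by
  have h1 : DifferentiableAt ℝ (fun r : ℝ => r⁻¹) (w x) := differentiableAt_inv hw0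
  have h2 : DifferentiableAt ℝ (fun y => (w y)⁻¹) x := h1.comp x hw
  simp only [div_eq_mul_inv]
  exact hu.fun_mul h2

theorem fd_div {u w : E3 → ℝ} (hu : DifferentiableAt ℝ u x) (hw : DifferentiableAt ℝ w x)
    (hw0 : w x ≠ 0) (v : E3) : fderiv ℝ (fun y => u y / w y) x v =
      (fderiv ℝ u x v * w x - u x * fderiv ℝ w x v) / w x ^ 2 := by
  have h1 := dir (diff_div hu hw hw0) v
  have h2 := (dir hu v).fun_div (dir hw v) (by rw [zero_smul, add_zero]; exact hw0)
  have h3 := h1.unique h2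
  simpa using h3

theorem fd_pow4 {w : E3 → ℝ} (hw : DifferentiableAt ℝ w x) (v : E3) :
    fderiv ℝ (fun y => w y ^ 4) x v = 4 * w x ^ 3 * fderiv ℝ w x v := by
  have h1 := dir (hw.fun_pow 4) v
  have h2 := (dir hw v).fun_pow 4
  have h3 := h1.unique h2
  simpa using h3

theorem fd_sum {F : Fin 3 → E3 → ℝ} (h : ∀ j, DifferentiableAt ℝ (F j) x) (v : E3) :
    fderiv ℝ (fun y => ∑ j, F j y) x v = ∑ j, fderiv ℝ (F j) x v := by
  rw [fderiv_fun_sum fun j _ => h j, sum_apply]

theorem diff_coord (i : Fin 3) : DifferentiableAt ℝ (fun y : E3 => y i) x :=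
  (EuclideanSpace.proj (𝕜 := ℝ) i : E3 →L[ℝ] ℝ).differentiableAt

theorem fd_coord (i : Fin 3) (v : E3) : fderiv ℝ (fun y : E3 => y i) x v = v i := by
  have h : (fun y : E3 => y i) = (EuclideanSpace.proj (𝕜 := ℝ) i : E3 →L[ℝ] ℝ) := rfl
  rw [h, ContinuousLinearMap.fderiv]
  rfl

/-- Euler -/
theorem sum_pd (u : E3 → ℝ) : ∑ j, pd j u x * x j = fderiv ℝ u x x := by
  have h : x = ∑ j, x j • EuclideanSpace.single j (1 : ℝ) := by
    ext k
    simp [Pi.single_apply]
  conv_rhs => rw [h, map_sum]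
  refine Finset.sum_congr rfl fun j _ => ?_
  rw [map_smul, smul_eq_mul, mul_comm]
  rw [← h]
  rfl

theorem diff_norm (hx : x ≠ 0) : DifferentiableAt ℝ (fun y : E3 => ‖y‖) x :=
  (contDiffAt_norm (n := 1) ℝ hx).differentiableAt (by norm_num)

theorem fd_norm (hx : x ≠ 0) (v : E3) : fderiv ℝ (fun y : E3 => ‖y‖) x v = inner ℝ x v / ‖x‖ := by
  have h0 : ‖x‖ ≠ 0 := norm_ne_zero_iff.2 hx
  have h1 := (dir (diff_norm hx) v).fun_pow 2
  have h2 : HasDerivAt (fun s : ℝ => ‖x + s • v‖ ^ 2) (2 * inner ℝ x v) 0 := by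
    have h3 := dir (x := x) ((hasStrictFDerivAt_norm_sq x).hasFDerivAt.differentiableAt) v
    rw [fderiv_norm_sq_apply] at h3
    simpa using h3
  have h4 := h1.unique h2
  rw [eq_div_iff h0]
  simp only [zero_smul, add_zero] at h4
  norm_num at h4
  linarith

theorem diff_rad {f : ℝ → ℝ} (hf : SmoothRad f) (hx : x ≠ 0) : DifferentiableAt ℝ (rad f) x := by
  have h1 : DifferentiableAt ℝ f ‖x‖ :=
    (hf ‖x‖ (norm_pos_iff.2 hx)).2.differentiableAt (by norm_num)
  exact h1.comp x (diff_norm hx)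

theorem fd_rad {f : ℝ → ℝ} (hf : SmoothRad f) (hx : x ≠ 0) (v : E3) :
    fderiv ℝ (rad f) x v = deriv f ‖x‖ * (inner ℝ x v / ‖x‖) := by
  have h1 : DifferentiableAt ℝ f ‖x‖ :=
    (hf ‖x‖ (norm_pos_iff.2 hx)).2.differentiableAt (by norm_num)
  have h2 := dir (diff_rad hf hx) v
  have h3 : HasDerivAt (fun s : ℝ => f ‖x + s • v‖) (deriv f ‖x‖ * (inner ℝ x v / ‖x‖)) 0 := by
    have h4 := dir (diff_norm hx) v
    rw [fd_norm hx v] at h4
    have h5 : HasDerivAt f (deriv f ‖x‖) ((fun s : ℝ => ‖x + s • v‖) 0) := by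
      simp only [zero_smul, add_zero]
      exact h1.hasDerivAt
    exact h5.comp (0 : ℝ) h4
  exact h2.unique h3

end JnuAux

open JnuAux

theorem jnu_pf : Jnu := by
  intro f h hf hh x hx
  have ht : ‖x‖ ≠ 0 := norm_ne_zero_iff.2 hx
  have hfx : f ‖x‖ ≠ 0 := (hf ‖x‖ (norm_pos_iff.2 hx)).1.ne'
  have hradx : rad f x = f ‖x‖ := rfl
  have dh : ∀ i j, DifferentiableAt ℝ (h i j) x := fun i j =>
    (hh.2 i j x hx).differentiableAt (by norm_num)
  have dr := diff_rad hf hx
  have dr4 : DifferentiableAt ℝ (fun y => rad f y ^ 4) x := dr.fun_pow 4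
  have hr4 : rad f x ^ 4 ≠ 0 := pow_ne_zero 4 hfx
  have dtr : DifferentiableAt ℝ (trE h) x := DifferentiableAt.fun_sum fun i _ => dh i i
  have dN : ∀ i, DifferentiableAt ℝ (fun y : E3 => ∑ j, h i j y * y j) x := fun i =>
    DifferentiableAt.fun_sum fun j _ => (dh i j).fun_mul (diff_coord j)
  have dlam : DifferentiableAt ℝ (lam h) x := by
    have h1 : DifferentiableAt ℝ (fun y : E3 => ∑ i, ∑ j, h i j y * y i * y j) x :=
      DifferentiableAt.fun_sum fun i _ => DifferentiableAt.fun_sum fun j _ =>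
        ((dh i j).fun_mul (diff_coord i)).fun_mul (diff_coord j)
    exact diff_div h1 ((diff_norm hx).fun_pow 2) (pow_ne_zero 2 ht)
  have dtl : DifferentiableAt ℝ (fun y => trE h y - lam h y) x := dtr.fun_sub dlam
  have eS : trS (rad f) h = fun y => (trE h y - lam h y) / rad f y ^ 4 := rfl
  have eG : trG (rad f) h = fun y => trE h y / rad f y ^ 4 := rfl
  refine ⟨by rw [eS]; exact diff_div dtl dr4 hr4, ?_⟩
  -- the radial derivatives
  have hrx : fderiv ℝ (rad f) x x = deriv f ‖x‖ * ‖x‖ := by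
    rw [fd_rad hf hx, real_inner_self_eq_norm_sq]
    field_simp
  have hS : fderiv ℝ (trS (rad f) h) x x =
      (fderiv ℝ (trE h) x x - fderiv ℝ (lam h) x x) / f ‖x‖ ^ 4 -
        4 * (trE h x - lam h x) * (deriv f ‖x‖ * ‖x‖) / f ‖x‖ ^ 5 := by
    rw [eS, fd_div dtl dr4 hr4, fd_sub dtr dlam, fd_pow4 dr, hrx, hradx]
    field_simp
  have hG : fderiv ℝ (trG (rad f) h) x x = fderiv ℝ (trE h) x x / f ‖x‖ ^ 4 -
        4 * trE h x * (deriv f ‖x‖ * ‖x‖) / f ‖x‖ ^ 5 := by
    rw [eG, fd_div dtr dr4 hr4, fd_pow4 dr, hrx, hradx]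
    field_simp
  -- the divergence
  have hpr : ∀ i, pd i (rad f) x = deriv f ‖x‖ * (x i / ‖x‖) := by
    intro i
    unfold pd
    rw [fd_rad hf hx]
    congr 2
    simp [EuclideanSpace.inner_single_right]
  have hV : divV h x = ∑ i, ∑ j, pd i (h i j) x * x j + trE h x - fderiv ℝ (lam h) x x -
      3 * lam h x := by
    have h1 : ∀ i, pd i (tanV h i) x = (∑ j, pd i (h i j) x * x j + h i i x) -
        (pd i (lam h) x * x i + lam h x) := by
      intro i
      have e : tanV h i = fun y => (∑ j, h i j y * y j) - lam h y * y i := rfl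
      rw [e]
      unfold pd
      rw [fd_sub (dN i) (dlam.fun_mul (diff_coord i)), fd_mul dlam (diff_coord i), fd_coord,
        fd_sum fun j => (dh i j).fun_mul (diff_coord j)]
      have h2 : ∀ j, fderiv ℝ (fun y : E3 => h i j y * y j) x (EuclideanSpace.single i (1 : ℝ)) =
          fderiv ℝ (h i j) x (EuclideanSpace.single i (1 : ℝ)) * x j +
            (if j = i then h i j x else 0) := by
        intro j
        rw [fd_mul (dh i j) (diff_coord j), fd_coord, PiLp.single_apply]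
        split_ifs <;> simp
      rw [Finset.sum_congr rfl fun j _ => h2 j, Finset.sum_add_distrib]
      simp
    unfold divV
    rw [Finset.sum_congr rfl fun i _ => h1 i, Finset.sum_sub_distrib, Finset.sum_add_distrib,
      Finset.sum_add_distrib, sum_pd]
    unfold trE
    simp only [Finset.sum_const, Finset.card_univ, Fintype.card_fin]
    rw [nsmul_eq_mul]
    push_cast
    ring
  have hlam : ∑ i, ∑ j, h i j x * x i * x j = lam h x * ‖x‖ ^ 2 := by
    unfold lam
    field_simp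
  -- the sum
  have hJ : ∑ j, J (rad f) h j x * x j =
      (∑ i, ∑ j, pd i (h i j) x * x j + 2 / f ‖x‖ * (deriv f ‖x‖ * ‖x‖ * lam h x) -
        2 / f ‖x‖ * (deriv f ‖x‖ * ‖x‖) * trE h x) / f ‖x‖ ^ 4 -
        fderiv ℝ (trG (rad f) h) x x := by
    have h1 : ∀ j, J (rad f) h j x * x j =
        ((∑ i, pd i (h i j) x * x j) + 2 / f ‖x‖ * (∑ i, pd i (rad f) x * h i j x * x j) -
          2 / f ‖x‖ * (pd j (rad f) x * x j) * trE h x) / f ‖x‖ ^ 4 -
          pd j (trG (rad f) h) x * x j := by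
      intro j
      unfold J divG
      rw [hradx, ← Finset.sum_mul, ← Finset.sum_mul]
      ring
    rw [Finset.sum_congr rfl fun j _ => h1 j, Finset.sum_sub_distrib, sum_pd,
      ← Finset.sum_div, Finset.sum_sub_distrib, Finset.sum_add_distrib, ← Finset.mul_sum,
      ← Finset.sum_mul, ← Finset.mul_sum, sum_pd, hrx, Finset.sum_comm]
    have h2 : ∑ j, ∑ i, pd i (rad f) x * h i j x * x j = deriv f ‖x‖ * ‖x‖ * lam h x := by
      rw [Finset.sum_comm]
      have h3 : ∀ i, ∑ j, pd i (rad f) x * h i j x * x j =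
          deriv f ‖x‖ / ‖x‖ * ∑ j, h i j x * x i * x j := by
        intro i
        rw [Finset.mul_sum]
        refine Finset.sum_congr rfl fun j _ => ?_
        rw [hpr i]
        ring
      rw [Finset.sum_congr rfl fun i _ => h3 i, ← Finset.mul_sum, hlam]
      field_simp
    rw [h2]
  have htS : trS (rad f) h x = (trE h x - lam h x) / f ‖x‖ ^ 4 := rfl
  have hD : ∑ i, ∑ j, pd i (h i j) x * x j = divV h x - trE h x + fderiv ℝ (lam h) x x +
      3 * lam h x := by
    rw [hV]; ring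
  rw [hJ, hG, hS, htS, hD]
  field_simp
  ring

end Pool.Agent.N795.PI
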